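import Mathlib

/-!
# Squad CRT (MP_46529f_an, common return times of all directional flows): definitions

Main theorem (`MainStmt`): for every surface `S` with a translation atlas (for example a translation
surface without its zeros), every point `p` of `S` and Lebesgue almost every invertible real matrix `g`,
the circles of radius `t → ∞` around `p` in the surface `g • S` do not concentrate at a point:
there are no point `q` and no sequence `t i → ∞` such that the points `F_θ^(t i) (p)` converge to `q`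
for almost every direction `θ`.  For `q = p` this is the negation of the common return property at `p`.
-/

namespace Pool.Agent.CRT

open Set Filter Topology MeasureTheory

noncomputable section

/-! ### Translation surfaces and their straight line flows -/

/-- the plane -/
abbrev Pl := ℝ × ℝ

/-- the unit vector in the direction `θ` -/
def dir (θ : ℝ) : Pl := (Real.cos θ, Real.sin θ)

/-- A surface with a translation atlas: a second countable Hausdorff space with charts with values in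
the plane which cover it and whose changes of coordinates are locally translations.  (A translation
surface without its singularities is such a surface; compactness is not assumed.) -/
structure TransSurf where
  X : Type
  [top : TopologicalSpace X]
  [t2 : T2Space X]
  [sc : SecondCountableTopology X]
  atlas : Set (OpenPartialHomeomorph X Pl)
  cover : ∀ x : X, ∃ φ ∈ atlas, x ∈ φ.source
  trans : ∀ φ ∈ atlas, ∀ ψ ∈ atlas, ∀ x : X, x ∈ φ.source → x ∈ ψ.source →
    ∃ v : Pl, ∀ᶠ y in 𝓝 x, ψ y = φ y + v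

attribute [instance] TransSurf.top TransSurf.t2 TransSurf.sc

/-- the point `c s` moves on `S` with the constant velocity `u` during the time `a ≤ s ≤ b` -/
def TransSurf.Moves (S : TransSurf) (u : Pl) (a b : ℝ) (c : ℝ → S.X) : Prop :=
  ∀ s ∈ Icc a b, ∃ φ ∈ S.atlas, c s ∈ φ.source ∧
    ∀ᶠ r in 𝓝[Icc a b] s, c r ∈ φ.source ∧ φ (c r) = φ (c s) + (r - s) • u

/-- `F_θ^t (p) = q`: the straight line flow in the direction `θ` at the time `t` -/
def TransSurf.FlowTo (S : TransSurf) (θ t : ℝ) (p q : S.X) : Prop :=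
  ∃ c : ℝ → S.X, S.Moves (dir θ) 0 t c ∧ c 0 = p ∧ c t = q

/-- there is a sequence `t i → ∞` such that for almost every `θ` the points `F_θ^(t i) (p)` (are defined
for large `i` and) converge to `q`; for `q = p`: common return at `p` -/
def TransSurf.Concentrates (S : TransSurf) (p q : S.X) : Prop :=
  ∃ t : ℕ → ℝ, Tendsto t atTop atTop ∧ ∀ᵐ θ : ℝ, ∃ x : ℕ → S.X,
    (∀ᶠ i in atTop, S.FlowTo θ (t i) p (x i)) ∧ Tendsto x atTop (𝓝 q)

/-- the surface `g • S`: the charts are composed with the linear map `g` -/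
def TransSurf.lin (S : TransSurf) (g : Pl ≃L[ℝ] Pl) : TransSurf where
  X := S.X
  atlas := {ψ | ∃ φ ∈ S.atlas, ψ = φ.trans g.toHomeomorph.toOpenPartialHomeomorph}
  cover := by
    intro x
    obtain ⟨φ, hφ, hx⟩ := S.cover x
    exact ⟨_, ⟨φ, hφ, rfl⟩, by simpa using hx⟩
  trans := by
    rintro _ ⟨φ, hφ, rfl⟩ _ ⟨ψ, hψ, rfl⟩ x hx hx'
    obtain ⟨v, hv⟩ := S.trans φ hφ ψ hψ x (by simpa using hx) (by simpa using hx')
    refine ⟨g v, ?_⟩
    filter_upwards [hv] with y hy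
    simp [hy]

/-- the determinant of the matrix with the columns `z.1` and `z.2` -/
def det2 (z : Pl × Pl) : ℝ := z.1.1 * z.2.2 - z.1.2 * z.2.1

/-- the linear map of the matrix with the columns `z.1` and `z.2` -/
def mat (z : Pl × Pl) (h : det2 z ≠ 0) : Pl ≃L[ℝ] Pl :=
  LinearEquiv.toContinuousLinearEquiv
    { toFun := fun w => w.1 • z.1 + w.2 • z.2
      map_add' := by intro v w; ext <;> simp <;> ring
      map_smul' := by intro a w; ext <;> simp <;> ring
      invFun := fun w => ((w.1 * z.2.2 - w.2 * z.2.1) / det2 z, (w.2 * z.1.1 - w.1 * z.1.2) / det2 z)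
      left_inv := by
        intro w
        ext
        · simp only [Prod.fst_add, Prod.smul_fst, smul_eq_mul, Prod.snd_add, Prod.smul_snd]
          rw [div_eq_iff h, det2]; ring
        · simp only [Prod.fst_add, Prod.smul_fst, smul_eq_mul, Prod.snd_add, Prod.smul_snd]
          rw [div_eq_iff h, det2]; ring
      right_inv := by
        intro w
        ext
        · simp only [Prod.fst_add, Prod.smul_fst, smul_eq_mul]
          rw [div_mul_eq_mul_div, div_mul_eq_mul_div, ← add_div, div_eq_iff h, det2]; ring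
        · simp only [Prod.snd_add, Prod.smul_snd, smul_eq_mul]
          rw [div_mul_eq_mul_div, div_mul_eq_mul_div, ← add_div, div_eq_iff h, det2]; ring }

/-- MAIN THEOREM -/
def MainStmt : Prop := ∀ (S : TransSurf) (p : S.X), ∀ᵐ z : Pl × Pl, ∀ h : det2 z ≠ 0,
  ∀ q : S.X, ¬ (S.lin (mat z h)).Concentrates p q

/-! ### The set which is seen from `p` -/

/-- `(x, σ)` such that the vector `σ (1, x)` leads from `p` into `U` -/
def Vis (S : TransSurf) (p : S.X) (U : Set S.X) : Set (ℝ × ℝ) :=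
  {z | 0 < z.2 ∧ ∃ c : ℝ → S.X, S.Moves (1, z.1) 0 z.2 c ∧ c 0 = p ∧ c z.2 ∈ U}

/-- gap property: the visits on a ray are within `e` or at distance `≥ L` -/
def Gap (Φ : Set (ℝ × ℝ)) (e L : ℝ) : Prop :=
  ∀ x ∈ Icc (-1 : ℝ) 1, ∀ σ σ' : ℝ, (x, σ) ∈ Φ → (x, σ') ∈ Φ → |σ - σ'| ≤ e ∨ L ≤ |σ - σ'|

/-- the slopes between `-1` and `1` for which the point `t (1 + w₁ x + w₂ x²)^(-1/2) (1, x)` of the
ellipse is outside of `Φ` -/
def Exc (Φ : Set (ℝ × ℝ)) (w : ℝ × ℝ) (t : ℝ) : Set ℝ :=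
  {x | x ∈ Icc (-1) 1 ∧ (x, t / Real.sqrt (1 + w.1 * x + w.2 * x ^ 2)) ∉ Φ}

/-- a compact set of shapes -/
def Reg (m : ℝ) : Set (ℝ × ℝ) :=
  {w | |w.1| ≤ m ∧ |w.2| ≤ m ∧ ∀ x ∈ Icc (-1 : ℝ) 1, 1 / m ≤ 1 + w.1 * x + w.2 * x ^ 2}

/-- the shape of the matrix with the columns `z.1` and `z.2`:
`|z.1 + x z.2|² = |z.1|² (1 + w₁ x + w₂ x²)` -/
def shp (z : Pl × Pl) : ℝ × ℝ :=
  (2 * (z.1.1 * z.2.1 + z.1.2 * z.2.2) / (z.1.1 ^ 2 + z.1.2 ^ 2),
    (z.2.1 ^ 2 + z.2.2 ^ 2) / (z.1.1 ^ 2 + z.1.2 ^ 2))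

/-! ### Analysis -/

/-- coefficients of a quadratic polynomial -/
abbrev Co := ℝ × ℝ × ℝ

/-- the value of the polynomial -/
def ev (P : Co) (x : ℝ) : ℝ := P.1 + P.2.1 * x + P.2.2 * x ^ 2

/-- the largest coefficient -/
def Nm (d : Co) : ℝ := max |d.1| (max |d.2.1| |d.2.2|)

/-- the discriminant -/
def Dc (d : Co) : ℝ := d.2.1 ^ 2 - 4 * d.1 * d.2.2

/-- box kernel -/
def bx (s y : ℝ) : ℝ := if |y| ≤ s then 1 / (2 * s) else 0

/-- difference of two box kernels of the widths `κ / T` and `6 κ / T` -/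
def ps (κ T y : ℝ) : ℝ := bx (κ / T) y - bx (6 * κ / T) y

/-- autocorrelation of `ps` -/
def PS (κ T y : ℝ) : ℝ := ∫ z, ps κ T z * ps κ T (z + y)

/-- the centres of the three arcs: `-1/2`, `0`, `1/2` -/
def ce (i : Fin 3) : ℝ := (((i : ℕ) : ℝ) - 1) / 2

/-- bump functions on the three arcs -/
def chi (i : Fin 3) (x : ℝ) : ℝ := (max 0 ((1 / 100) ^ 2 - (x - ce i) ^ 2)) ^ 2

/-- the weight of a difference -/
def wt (i : Fin 3) (κ T : ℝ) (d : Co) : ℝ := ∫ x in (-1 : ℝ)..1, chi i x * PS κ T (ev d x)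

/-- decay `(1 + x)^(-3/2)` -/
def dk (x : ℝ) : ℝ := 1 / ((1 + x) * Real.sqrt (1 + x))

/-- `P s`, `s ∈ Q`, are the coefficients of one curve for every square `s` of side `1/T` of the plane
of the shapes -/
def Fam (m T : ℝ) (Q : Finset (ℤ × ℤ)) (P : ℤ × ℤ → Co) : Prop :=
  ∀ s ∈ Q, ∃ l β γ : ℝ, 1 / 4 ≤ l ∧ l ≤ 1 ∧ |β| ≤ m ∧ |γ| ≤ m ∧ P s = (l, l * β, l * γ) ∧
    (s.1 : ℝ) ≤ T * β ∧ T * β < s.1 + 1 ∧ (s.2 : ℝ) ≤ T * γ ∧ T * γ < s.2 + 1

/-- the curves `P s` avoid gaps of the size `14 κ / T` outside of small exceptional sets -/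
def Conc (κ T : ℝ) (Q : Finset (ℤ × ℤ)) (P : ℤ × ℤ → Co) : Prop :=
  ∃ E : ℤ × ℤ → Set ℝ, (∀ s ∈ Q, MeasurableSet (E s) ∧ volume (E s) ≤ ENNReal.ofReal (1 / 2500)) ∧
    ∀ x ∈ Icc (-1 : ℝ) 1, ∀ s ∈ Q, ∀ s' ∈ Q, x ∉ E s → x ∉ E s' →
      |ev (P s) x - ev (P s') x| ≤ κ / T ∨ 14 * κ / T < |ev (P s) x - ev (P s') x|

/-- the pairs of curves which are almost tangent in the arc `i`; `σ` is the sign of the leading
coefficient of the difference -/
def Sec (i : Fin 3) (σ : ℝ) (d : Co) : Prop := 0 < σ * d.2.2 ∧ Nm d ≤ 3 * (σ * d.2.2) ∧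
  |d.2.1 + 2 * ce i * d.2.2| ≤ σ * d.2.2 / 30 ∧ |d.1 - ce i ^ 2 * d.2.2| ≤ σ * d.2.2 / 60

/-- far and almost tangent pairs -/
def Far (i : Fin 3) (κ τ : ℝ) (d : Co) : Prop := 1 ≤ τ ^ 4 * Nm d ∧
  |Dc d| ≤ Nm d ^ 2 / 10 ^ 6 ∧ wt i κ (τ ^ 10) d ≠ 0

end

end Pool.Agent.CRT
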