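import Pool.Agent.CRT.Defs

/-!
# Squad CRT (MP_46529f_an): statements

All rows are independent: a row may use the statements named in the column `uses` of the table `crt`
(or any other statement of this file) as hypotheses.  Complete proofs are in the docstrings.

Idea.  On `g • S` the circle of radius `t` around `p` is an ellipse of the tangent plane at `p`; in the
coordinates `(x, σ)` of the vectors `σ (1, x)` and with `y = T² / σ²` it is the parabola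
`y = P₀ + P₁ x + P₂ x²`, `P = (T/t)² (1, w₁, w₂)`, `w` the shape of `g`.  A straight line which is near
to `q` leaves the neighbourhood of `q` for a fixed time (gap property).  If many parabolas of different
shapes were concentrated in a set with the gap property, then there would be too many pairs of nearly
tangent parabolas (three light cones meet in few points).  So at the scale `T` there are at most
`C T^(19/10)` bad squares of side `1/T` of shapes, and Borel-Cantelli applies.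
-/

namespace Pool.Agent.CRT

open Set Filter Topology MeasureTheory

noncomputable section

/-! ## G. Geometry of straight paths -/

/-- UNI: uniqueness of straight paths.

Proof.  `c` and `c'` are continuous on `Icc a b` (near `s`: `c r = φ.symm (φ (c s) + (r - s) • u)`).
`A = {s ∈ Icc a b | c s = c' s}` is closed in `Icc a b` because `X` is Hausdorff.  It is open in
`Icc a b`: let `s ∈ A`, `φ`, `φ'` the charts for `c`, `c'` at `s`, `φ' = φ + v` near `c s`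
(`S.trans`).  For `r ∈ Icc a b` near `s` the point `c' r` is near `c s`, it is in `φ.source` and
`φ (c' r) = φ' (c' r) - v = φ' (c' s) + (r - s) • u - v = φ (c s) + (r - s) • u = φ (c r)`, so
`c' r = c r` (`φ.injOn`).  `Icc a b` is preconnected. -/
def UniStmt : Prop := ∀ (S : TransSurf) (u : Pl) (a b : ℝ) (c c' : ℝ → S.X),
  S.Moves u a b c → S.Moves u a b c' → ∀ s₀ ∈ Icc a b, c s₀ = c' s₀ → ∀ s ∈ Icc a b, c s = c' s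

/-- CRV: straight segments in a chart are straight paths.

Proof.  The chart is `φ` for every `s`; `φ.symm` maps the target to the source and `φ (φ.symm y) = y`. -/
def CrvStmt : Prop := ∀ (S : TransSurf), ∀ φ ∈ S.atlas, ∀ (u v : Pl) (a b s₀ : ℝ),
  (∀ s ∈ Icc a b, v + (s - s₀) • u ∈ φ.target) →
  S.Moves u a b (fun s => φ.symm (v + (s - s₀) • u))

/-- RST: restriction, congruence, change of the speed.

Proof.  (1), (2): `nhdsWithin_mono`, `Icc a' b' ⊆ Icc a b`; the values of `c'` and `c` agree on `Icc`.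
(3): substitute `s ↦ l * s`. -/
def RstStmt : Prop := ∀ (S : TransSurf) (u : Pl) (a b : ℝ) (c : ℝ → S.X), S.Moves u a b c →
  (∀ a' b' : ℝ, a ≤ a' → b' ≤ b → S.Moves u a' b' c) ∧
  (∀ c' : ℝ → S.X, (∀ s ∈ Icc a b, c' s = c s) → S.Moves u a b c') ∧
  (∀ l : ℝ, 0 < l → S.Moves (l • u) (a / l) (b / l) (fun s => c (l * s)))

/-- GLU: gluing of two straight paths.

Proof.  For `s < b` the new path is `c` near `s`, for `s > b` it is `c'` near `s`.  For `s = b`: let `φ`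
be the chart of `c` at `b` and `φ'` the chart of `c'` at `b`, `φ' = φ + v` near `c b = c' b`; `c'` is
continuous at `b` within `Icc b d`, so for `r ≥ b` near `b` the point `c' r` is in `φ.source` and
`φ (c' r) = φ' (c' r) - v = φ' (c b) + (r - b) • u - v = φ (c b) + (r - b) • u`. -/
def GluStmt : Prop := ∀ (S : TransSurf) (u : Pl) (a b d : ℝ) (c c' : ℝ → S.X), a ≤ b → b ≤ d →
  S.Moves u a b c → S.Moves u b d c' → c b = c' b →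
  S.Moves u a d (fun s => if s ≤ b then c s else c' s)

/-- EXT: prolongation or restriction of a straight path inside of a chart.

Proof.  `τ ≥ 0`: glue (`GLU`) `c` on `[0, t]` and `s ↦ φ.symm (φ (c t) + (s - t) • u)` on `[t, t + τ]`
(`CRV` with `s₀ = t`; `s - t = l τ`, `l ∈ [0, 1]`).  `τ < 0`: take `c' = c` (restriction, `RST`); on
`[t + τ, t]` the paths `c` and `s ↦ φ.symm (φ (c t) + (s - t) • u)` are straight and agree at `t`, so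
they agree at `t + τ` (`UNI`). -/
def ExtStmt : Prop := ∀ (S : TransSurf), ∀ φ ∈ S.atlas, ∀ (u : Pl) (t τ : ℝ) (c : ℝ → S.X),
  0 ≤ t → 0 ≤ t + τ → S.Moves u 0 t c → c t ∈ φ.source →
  (∀ l ∈ Icc (0 : ℝ) 1, φ (c t) + (l * τ) • u ∈ φ.target) →
  ∃ c' : ℝ → S.X, S.Moves u 0 (t + τ) c' ∧ c' 0 = c 0 ∧ c' (t + τ) = φ.symm (φ (c t) + τ • u)

/-- VGP: the visits of a small neighbourhood have the gap property.

Proof.  Let `φ` be a chart at `q`, `closedBall (φ q) r ⊆ φ.target`, `r > 0` (sup norm of `ℝ × ℝ`),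
`s = r / (2 C + 1)`, `U = φ.source ∩ φ ⁻¹' ball (φ q) s` (open), `e = 2 s`, `L = r - s`; `C e ≤ L`.
Let `|x| ≤ 1`, `(x, σ), (x, σ') ∈ Vis`, `σ < σ'`, `σ' - σ < L`, with the paths `c`, `c'`.  By `UNI`
`c = c'` on `[0, σ]`, so `c' σ ∈ U`.  Put `v = φ (c' σ)`.  For `0 ≤ ξ ≤ σ' - σ`:
`‖v + ξ • (1, x) - φ q‖ < s + ξ ≤ r`, because `‖(1, x)‖ = 1`, so `v + ξ • (1, x) ∈ φ.target`; by `CRV`,
`UNI` (on `[σ, σ']`) `c' σ' = φ.symm (v + (σ' - σ) • (1, x))`, so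
`φ (c' σ') = v + (σ' - σ) • (1, x) ∈ ball (φ q) s`, hence `σ' - σ = ‖(σ' - σ) • (1, x)‖ < 2 s = e`. -/
def VgpStmt : Prop := ∀ (S : TransSurf) (p q : S.X) (C : ℝ), 1 ≤ C → ∃ U : Set S.X, IsOpen U ∧ q ∈ U ∧
  ∃ e L : ℝ, 0 < e ∧ C * e ≤ L ∧ Gap (Vis S p U) e L

/-- OPN: the visits of an open set form an open set.

Proof.  Let `(x₀, σ₀) ∈ Vis` with the path `c₀`, `u₀ = (1, x₀)`.  Let `A` be the set of the
`s ∈ [0, σ₀]` such that for every open `V ∋ c₀ s` there is `δ > 0` such that for all `x`, `σ` with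
`|x - x₀| < δ`, `|σ - s| < δ`, `0 ≤ σ` there is a path `c` with `Moves (1, x) 0 σ c`, `c 0 = p`,
`c σ ∈ V`.  (i) `0 ∈ A`: `CRV` in a chart at `p`.  (ii) every `s₁ ∈ [0, σ₀]` has `ρ > 0` such that for
`s, s' ∈ [0, σ₀]` with `|s - s₁|, |s' - s₁| < ρ`: `s ∈ A → s' ∈ A`.  Let `φ` be the chart at `c₀ s₁`,
`closedBall (φ (c₀ s₁)) R ⊆ φ.target`, `ρ` small against `R` and such that
`φ (c₀ s) = φ (c₀ s₁) + (s - s₁) • u₀` for `|s - s₁| < ρ`.  Given an open `V ∋ c₀ s'` take `η < R / 4`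
with `φ.symm '' ball (φ (c₀ s')) η ⊆ V`; as `s ∈ A` there are for `(x, σ)` near `(x₀, s)` paths with
`φ (c σ)` within `η / 4` of `φ (c₀ s)`; for `σ'` near `s'` prolong by `τ = σ' - σ` (`EXT`, choose
`σ = s` or any admissible value near `s`, the segment stays in the ball); the new end point
`φ.symm (φ (c σ) + τ • (1, x))` is in `φ.symm '' ball (φ (c₀ s')) η`.  (iii) `[0, σ₀]` is connected, so
`σ₀ ∈ A`; this gives a neighbourhood of `(x₀, σ₀)` inside of `Vis`. -/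
def OpnStmt : Prop := ∀ (S : TransSurf) (p : S.X) (U : Set S.X), IsOpen U → IsOpen (Vis S p U)

/-- LIN: the straight line flow of `g • S`.

Proof.  A chart of `g • S` is `g ∘ φ`; `g (φ (c r)) = g (φ (c s)) + (r - s) • dir θ` and
`dir θ = l • g (1, x)` give `φ (c r) = φ (c s) + (r - s) • (l • (1, x))`.  So `c` moves on `S` with the
velocity `l • (1, x)`; change the speed (`RST` (3) with `l⁻¹`). -/
def LinStmt : Prop := ∀ (S : TransSurf) (g : Pl ≃L[ℝ] Pl) (θ x l t : ℝ) (p q : S.X), 0 < l → 0 ≤ t →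
  dir θ = l • g (1, x) → (S.lin g).FlowTo θ t p q →
  ∃ c : ℝ → S.X, S.Moves (1, x) 0 (l * t) c ∧ c 0 = p ∧ c (l * t) = q

/-- POL: null sets of directions.

Proof.  Let `w θ = g.symm (dir θ)`, a differentiable function of `θ`.  `dir θ = l • g (1, x)`, `l > 0`
means `w θ = l • (1, x)`, so `(w θ).1 = l > 0` and `x = (w θ).2 / (w θ).1`.  So the exceptional set of
the `x` is contained in the image of `N ∩ {θ | 0 < (w θ).1}` under `θ ↦ (w θ).2 / (w θ).1`, which is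
differentiable there, so it is a null set
(`MeasureTheory.addHaar_image_eq_zero_of_differentiableOn_of_addHaar_eq_zero`). -/
def PolStmt : Prop := ∀ (g : Pl ≃L[ℝ] Pl) (N : Set ℝ), volume N = 0 →
  ∀ᵐ x : ℝ, ∀ θ l : ℝ, 0 < l → dir θ = l • g (1, x) → θ ∉ N

/-- MAT: from the shapes to the matrices.

Proof.  Let `N` be a measurable null set which contains the `w` with `0 < 4 w₂ - w₁²`, `w ∉ G`
(`toMeasurable`).  `shp z ∈ N` is a measurable condition; by Fubini (`Measure.ae_prod_iff...`,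
`volume` on the product is the product measure) it is enough that for every `u ≠ 0` the set of the `v`
with `det2 (u, v) ≠ 0`, `shp (u, v) ∈ N` is a null set (`u = 0` is a null set).  Write
`v = α u + κ u'`, `u' = (-u₂, u₁)`; `(α, κ) ↦ v` is a linear automorphism and
`shp (u, v) = (2 α, α² + κ²)`, `det2 (u, v) = κ |u|²`.  For `κ > 0`: `α = w₁ / 2`,
`κ = sqrt (w₂ - w₁² / 4)`; so the set of the `(α, κ)`, `κ > 0`, with `(2 α, α² + κ²) ∈ N` is the image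
of the null set `N ∩ {0 < 4 w₂ - w₁²}` under a differentiable map, hence a null set
(`addHaar_image_eq_zero_of_differentiableOn_of_addHaar_eq_zero`); the same for `κ < 0`.
`4 w₂ - w₁² = 4 det² / |u|⁴ > 0` for `w = shp z`. -/
def MatStmt : Prop := ∀ G : Set (ℝ × ℝ), (∀ᵐ w : ℝ × ℝ, 0 < 4 * w.2 - w.1 ^ 2 → w ∈ G) →
  ∀ᵐ z : Pl × Pl, det2 z ≠ 0 → shp z ∈ G

/-! ## K. The kernel -/

/-- PSI: elementary properties of the kernel.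

Proof.  `ps` is bounded by `T / (2 κ)`, supported in `|y| ≤ 6 κ / T`, `∫ |ps| ≤ 2`, `∫ ps = 0`.
Continuity of the correlation of two bounded functions with compact support (or the explicit piecewise
linear formula).  `F y = ∫ z in Iic y, PS z`, `∫ |PS| ≤ (∫ |ps|)² ≤ 4`, `∫ PS = (∫ ps)² = 0`. -/
def PsiStmt : Prop := ∀ κ T : ℝ, 0 < κ → 0 < T → Continuous (PS κ T) ∧
  (∀ y, |PS κ T y| ≤ T / κ) ∧ (∀ y, 12 * κ / T ≤ |y| → PS κ T y = 0) ∧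
  ∃ F : ℝ → ℝ, (∀ y, HasDerivAt F (PS κ T y) y) ∧ (∀ y, |F y| ≤ 4) ∧
    (∀ y, 12 * κ / T ≤ |y| → F y = 0)

/-- SUA: sublevel sets of quadratic polynomials.

Proof.  Let `E` be the (closed) set, `v` its measure, `v > 0`.  There are `x₁ < x₂ < x₃` in `E` with
`x₂ - x₁ ≥ v / 4`, `x₃ - x₂ ≥ v / 4` (`x₁ = min E`, `x₃ = max E`, and
`E ∖ ([x₁, x₁ + v/4] ∪ [x₃ - v/4, x₃])` has positive measure).  Lagrange interpolation at these points: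
every coefficient of `ev d` is at most `3 · 2 s / (v / 4)²`, so `Nm d ≤ 96 s / v²`. -/
def SuaStmt : Prop := ∃ C : ℝ, 0 < C ∧ ∀ (d : Co) (s : ℝ), 0 < s → 0 < Nm d →
  volume {x | x ∈ Icc (-1 : ℝ) 1 ∧ |ev d x| ≤ s} ≤ ENNReal.ofReal (C * Real.sqrt (s / Nm d))

/-- SUB: sublevel sets near simple zeros.

Proof.  Let `h = ev d`, `h' x = d₁ + 2 d₂ x`; `h'² = D + 4 d₂ h`.  On the set `E` we have
`h'² ≥ D - 4 Nm d s ≥ D / 2 > 0`.  If `x < x'` are in `E` and `h' > 0` at both, then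
`h' ≥ sqrt (D / 2)` on `[x, x']` (`h'` is affine) and `2 s ≥ h x' - h x ≥ sqrt (D / 2) (x' - x)`.  So
the part of `E` with `h' > 0` is contained in an interval of length `2 s / sqrt (D / 2)`; the same for
`h' < 0`. -/
def SubStmt : Prop := ∀ (d : Co) (s : ℝ), 0 < s → 0 < Nm d → 8 * Nm d * s ≤ Dc d →
  volume {x | x ∈ Icc (-1 : ℝ) 1 ∧ |ev d x| ≤ s} ≤ ENNReal.ofReal (6 * s / Real.sqrt (Dc d))

/-- KER: the weights.

Proof.  Let `s = 12 κ / T`, `N = Nm d`, `D = Dc d`, `h = ev d`; `0 ≤ chi ≤ 1`, `|chi'| ≤ 1`, `chi` is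
`C¹` and vanishes near `±1`.  `PS (h x) = 0` unless `|h x| < s`.
(a) always `|wt| ≤ 2 T / κ`.
(b) `|D| < 8 N s`: `|wt| ≤ (T / κ) C sqrt (s / N)` (`SUA`), and `dk (T |D| / N) ≥ dk (96 κ)`.
(c) `D ≤ -8 N s`: `h = ((2 d₂ x + d₁)² - D) / (4 d₂)`, so `|h| ≥ |D| / (4 N) ≥ 2 s` and `wt = 0`.
(d) `D ≥ 8 N s`: by parts.  Let `F` be as in `PSI`.  The function `G = chi · F (h) / h'` (`0` where
`h' = 0`) is differentiable: where `|h| ≤ s` we have `h'² = D + 4 d₂ h ≥ D / 2 > 0`, and where `|h| > s`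
it vanishes.  `G' = chi PS (h) + (chi' / h' - chi h'' / h'²) F (h)`, `G = 0` near `±1`.  So
`wt = - ∫ (chi' / h' - chi h'' / h'²) F (h)`, the integrand is `0` where `|h| > s` and elsewhere at most
`4 (sqrt 2 / sqrt D + 4 N / D) ≤ 40 N / D` (`D ≤ 5 N²`).  With `SUB`:
`|wt| ≤ 40 (N / D) 6 s / sqrt D = C N / (T D sqrt D)`, and `1 + T D / N ≤ (1 + 1 / (96 κ)) T D / N`. -/
def KerStmt : Prop := ∀ κ : ℝ, 0 < κ → ∃ C : ℝ, 0 < C ∧ ∀ T : ℝ, 1 ≤ T → ∀ (i : Fin 3) (d : Co),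
  |wt i κ T d| ≤ C * T ∧
  (0 < Nm d → |wt i κ T d| ≤ C * (Real.sqrt (T / Nm d) * dk (T * |Dc d| / Nm d)))

/-! ## D. Duality -/

/-- DUA: points with the gap property have large energy at the scale `κ / T`.

Proof.  Let `n = Q.card`, `ψ = ps κ T`, `F y = ∑ s ∈ Q, ψ (y - y s)`.  `∫ F² = ∑ ∑ PS (y s - y s')`
(substitute `z = y - y s`), so the double sum is `≥ 0`.  Let `Φ` be the union of the intervals
`[y s - κ/T, y s + κ/T]`, `s ∈ G`; it is contained in `[-(Y + κ), Y + κ]`.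
`∫_Φ F = ∑ s ∈ Q, (T/(2κ) |Φ ∩ [y s ± κ/T]| - T/(12κ) |Φ ∩ [y s ± 6κ/T]|)`.  The first term is `1` for
`s ∈ G` and `≥ 0` always.  The second is at most `1/4`: if the intervals of `s', s'' ∈ G` meet
`[y s ± 6κ/T]` then `|y s' - y s''| ≤ 14 κ/T`, so `≤ κ/T`; so `Φ ∩ [y s ± 6κ/T]` is contained in an
interval of length `3 κ/T`.  So `∫_Φ F ≥ 11 n / 12 - n / 4 = 2 n / 3`, and Cauchy-Schwarz gives
`(2 n / 3)² ≤ 2 (Y + κ) ∫ F²`. -/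
def DuaStmt : Prop := ∀ κ Y : ℝ, 0 < κ → 0 < Y → ∃ c : ℝ, 0 < c ∧ ∀ T : ℝ, 1 ≤ T →
  ∀ (ι : Type) [DecidableEq ι] (Q G : Finset ι) (y : ι → ℝ), G ⊆ Q → (∀ s ∈ Q, |y s| ≤ Y) →
  (∀ s ∈ G, ∀ s' ∈ G, |y s - y s'| ≤ κ / T ∨ 14 * κ / T < |y s - y s'|) →
  0 ≤ ∑ s ∈ Q, ∑ s' ∈ Q, PS κ T (y s - y s') ∧
  (11 / 12 * (Q.card : ℝ) ≤ G.card →
    c * (Q.card : ℝ) ^ 2 ≤ ∑ s ∈ Q, ∑ s' ∈ Q, PS κ T (y s - y s'))

/-- DUB: the weights have large sums.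

Proof.  `n = Q'.card`, `|ev (P s) x| ≤ 1 + 2 m` on `[-1, 1]`, `ev (P s - P s') x` is the difference of
the values.  For `x` let `G x = {s ∈ Q' | x ∉ E s}`.  The set `Z` of the `x ∈ [-1, 1]` with
`G x` smaller than `11 n / 12` has measure at most `12 / 2500` (Markov:
`∑ s, volume (E s) ≤ n / 2500`; measurable).  The function
`V x = ∑ ∑ PS (ev (P s) x - ev (P s') x)` is `≥ 0` and `≥ c n²` outside of `Z` (`DUA` with
`Y = 1 + 2 m`), continuous (`PSI`).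
`∑ ∑ wt i = ∫ chi i V ≥ c n² (∫ chi i - 12 / 2500 · sup chi i)`, and with `r = 1/100`:
`∫ chi i = 16 r⁵ / 15`, `sup chi i = r⁴`, so the bracket is at least `r⁴ (16 / 1500 - 12 / 2500) > 0`. -/
def DubStmt : Prop := ∀ κ m : ℝ, 0 < κ → 1 ≤ m → ∃ c : ℝ, 0 < c ∧ ∀ T : ℝ, 1 ≤ T →
  ∀ (Q : Finset (ℤ × ℤ)) (P : ℤ × ℤ → Co), Fam m T Q P → Conc κ T Q P → ∀ Q' ⊆ Q, ∀ i : Fin 3,
  c * (Q'.card : ℝ) ^ 2 ≤ ∑ s ∈ Q', ∑ s' ∈ Q', wt i κ T (P s - P s')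

/-- LOW: many elements have large degrees.

Proof.  `M = Q.card`.  Let `Lᵢ` be the set of the `s ∈ Q` with `∑ s' ∈ Q, |w i s s'| < c / 4 · M`.  By
the hypothesis for `Q' = Lᵢ`: `c |Lᵢ|² ≤ ∑ s ∈ Lᵢ, ∑ s' ∈ Q, |w i s s'| ≤ |Lᵢ| c / 4 · M`, so
`|Lᵢ| ≤ M / 4`; three of them cover at most `3 M / 4` elements. -/
def LowStmt : Prop := ∀ (ι : Type) [DecidableEq ι] (Q : Finset ι) (w : Fin 3 → ι → ι → ℝ) (c : ℝ),
  0 < c → (∀ Q' ⊆ Q, ∀ i, c * (Q'.card : ℝ) ^ 2 ≤ ∑ s ∈ Q', ∑ s' ∈ Q', w i s s') →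
  ∃ Q₁ ⊆ Q, (Q.card : ℝ) / 4 ≤ Q₁.card ∧ ∀ s ∈ Q₁, ∀ i, c / 4 * (Q.card : ℝ) ≤ ∑ s' ∈ Q, |w i s s'|

/-! ## C. Counting -/

/-- NBH: near curves have near shapes.

Proof.  `P s = l (1, β, γ)`, `P s' = l' (1, β', γ')`, `N = Nm (P s - P s')`:
`l (β - β') = (l β - l' β') - (l - l') β'`, so `|β - β'| ≤ 4 (1 + m) N`, and
`|s.1 - s'.1| ≤ T |β - β'| + 1`.  `|T β| ≤ T m`. -/
def NbhStmt : Prop := ∀ m : ℝ, 1 ≤ m → ∃ C : ℝ, 1 ≤ C ∧ ∀ T : ℝ, 1 ≤ T →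
  ∀ (Q : Finset (ℤ × ℤ)) (P : ℤ × ℤ → Co), Fam m T Q P → ∀ s ∈ Q,
  |(s.1 : ℝ)| ≤ C * T ∧ |(s.2 : ℝ)| ≤ C * T ∧ ∀ s' ∈ Q,
    |(s.1 : ℝ) - s'.1| ≤ C * (1 + T * Nm (P s - P s')) ∧
    |(s.2 : ℝ) - s'.2| ≤ C * (1 + T * Nm (P s - P s'))

/-- LAT: lattice sums.

Proof.  There are at most `(2 R + 1)² ≤ 9 R²` points.  There are at most `8 k` points at the distance
`k ≥ 1` (sup norm), and `∑ (k ≤ R) 8 k / sqrt (1 + k) + 1 ≤ 8 ∑ (k ≤ R) sqrt k + 1 ≤ 9 R sqrt R`. -/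
def LatStmt : Prop := ∃ C : ℝ, 0 < C ∧ ∀ (Q : Finset (ℤ × ℤ)) (s : ℤ × ℤ) (R : ℝ), 1 ≤ R →
  (∀ s' ∈ Q, |(s'.1 : ℝ) - s.1| ≤ R ∧ |(s'.2 : ℝ) - s.2| ≤ R) →
  (Q.card : ℝ) ≤ C * R ^ 2 ∧
  ∑ s' ∈ Q, 1 / Real.sqrt (1 + max |(s'.1 : ℝ) - s.1| |(s'.2 : ℝ) - s.2|) ≤ C * (R * Real.sqrt R)

/-- NSM: near pairs contribute little.

Proof.  `T = τ^10`.  By `NBH` the distance `k = ‖s - s'‖` (sup norm) is at most
`R = C (1 + τ^6) ≤ 2 C τ^6`.  If `k ≤ 2 C`: use `|wt| ≤ C₁ T`, there are at most `C₂` such `s'` (`LAT`).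
If `k > 2 C`: `C T N ≥ k - C ≥ k / 2`, so
`|wt| ≤ C₁ sqrt (T / N) = C₁ T / sqrt (T N) ≤ C₃ T / sqrt (1 + k)`; the sum is at most
`C₄ T R sqrt R ≤ C₅ τ^(10 + 9)` (`LAT`). -/
def NsmStmt : Prop := ∀ κ m : ℝ, 0 < κ → 1 ≤ m → ∃ C : ℝ, 0 < C ∧ ∀ τ : ℝ, 1 ≤ τ →
  ∀ (Q : Finset (ℤ × ℤ)) (P : ℤ × ℤ → Co), Fam m (τ ^ 10) Q P → ∀ s ∈ Q, ∀ i : Fin 3, ∀ Q' ⊆ Q,
  (∀ s' ∈ Q', τ ^ 4 * Nm (P s - P s') < 1) →
  ∑ s' ∈ Q', |wt i κ (τ ^ 10) (P s - P s')| ≤ C * τ ^ 19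

/-- FAR: the far and almost tangent pairs carry half of the weight.

Proof.  `N = Nm (P s - P s')`, `D = Dc (P s - P s')`.  The `s'` with `τ^4 N < 1` contribute at most
`C₁ τ^19 ≤ c / 4 · Q.card` (`NSM`).  The `s'` with `τ^4 N ≥ 1` and `|D| > N² / 10^6`:
`T |D| / N ≥ T N / 10^6`, `dk x ≤ x^(-3/2)`, so by `KER`
`|wt| ≤ C₂ (T / N)^(1/2) (T N)^(-3/2) 10^9 = C₃ / (T N²) ≤ C₃ τ^(8 - 10)`; together at most
`C₃ τ^(-2) Q.card ≤ c / 4 · Q.card`.  The remaining `s'` with `wt ≠ 0` are `Far`. -/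
def FarStmt : Prop := ∀ κ m c : ℝ, 0 < κ → 1 ≤ m → 0 < c → ∃ C τ₀ : ℝ, 0 < C ∧ 1 ≤ τ₀ ∧ ∀ τ : ℝ,
  τ₀ ≤ τ → ∀ (Q : Finset (ℤ × ℤ)) (P : ℤ × ℤ → Co), Fam m (τ ^ 10) Q P →
  C * τ ^ 19 ≤ Q.card → ∀ s ∈ Q, ∀ i : Fin 3,
  c * (Q.card : ℝ) ≤ ∑ s' ∈ Q, |wt i κ (τ ^ 10) (P s - P s')| →
  ∃ Q' ⊆ Q, (∀ s' ∈ Q', Far i κ τ (P s - P s')) ∧
    c / 2 * (Q.card : ℝ) ≤ ∑ s' ∈ Q', |wt i κ (τ ^ 10) (P s - P s')|

/-- SEC: almost tangent pairs lie in a sector.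

Proof.  `T = τ^10`, `N = Nm d ≥ τ^(-4)`, `s = 12 κ / T`, `s / N ≤ 12 κ τ^(-6)` is small.  As
`wt i ≠ 0` there is `x` with `|x - ce i| < 1/100` and `|h x| < s`, `h = ev d` (`PSI`).
`h'(x)² = D + 4 d₂ h ≤ N² / 10^6 + 4 N s ≤ 2 N² / 10^6`, `|h'(x)| ≤ N / 700`.
`d₁ = h' - 2 d₂ x`, `d₀ = h - h' x + d₂ x²`.  So `N ≤ N / 700 + N / 1000 + 1.02 |d₂|`, hence
`N ≤ 1.1 |d₂|`; `|d₁ + 2 ce d₂| ≤ |h'| + 2 |d₂| |x - ce| ≤ |d₂| (1/500 + 1/50)`,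
`|d₀ - ce² d₂| ≤ |h| + |h'| |x| + |d₂| |x² - ce²| ≤ |d₂| (1/500 + 1/99)`.  `σ` is the sign of
`d₂`. -/
def SecStmt : Prop := ∀ κ : ℝ, 0 < κ → ∃ τ₀ : ℝ, 1 ≤ τ₀ ∧ ∀ τ : ℝ, τ₀ ≤ τ → ∀ (i : Fin 3) (d : Co),
  Far i κ τ d → ∃ σ : ℝ, (σ = 1 ∨ σ = -1) ∧ Sec i σ d

/-- TRI: three null directions are independent.

Proof.  Let `vᵢ = z₀ + ce i z₁ + ce i² z₂`; `|vᵢ| ≤ v + Nm z / 1000 + Nm z / 30`.  `ce = -1/2, 0, 1/2`:
`z₀ = v₁`, `z₁ = v₂ - v₀`, `z₂ = 2 (v₀ + v₂) - 4 v₁` (indices `0, 1, 2`).  So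
`Nm z ≤ 8 (v + Nm z / 1000 + Nm z / 30)`. -/
def TriStmt : Prop := ∀ (z : Co) (v : ℝ) (ξ η : Fin 3 → ℝ), (∀ i, |ξ i - ce i| ≤ 1 / 60) →
  (∀ i, |η i - ce i ^ 2| ≤ 1 / 60) →
  (∀ i, |z.1 + ξ i * z.2.1 + η i * z.2.2| ≤ v + Nm z / 1000) → Nm z ≤ 20 * v

/-- SOL: there are few curves which are almost tangent to three given ones.

Proof.  For `s ∈ Q'` put `dᵢ = P s - p i`, `kᵢ = ⌊T Dc dᵢ / Nm dᵢ⌋`.  Let `s, s' ∈ Q'` have the same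
`k`, `z = P s - P s' = dᵢ - d'ᵢ`, `N = Nm dᵢ`, `N' = Nm d'ᵢ`.  `|N - N'| ≤ Nm z`.  The polarised
identity: `Dc d - Dc d' = z₁ u₁ - 2 z₀ u₂ - 2 z₂ u₀ = -2 u₂ (z₀ + ξ z₁ + η z₂)`, `u = d + d'`,
`ξ = - u₁ / (2 u₂)`, `η = u₀ / u₂`; `Sec` gives `|ξ - ce i| ≤ 1/60`, `|η - ce i²| ≤ 1/60`,
`2 |u₂| ≥ 2/3 (N + N')`.  `Dc d = N (k + f) / T`, `Dc d' = N' (k + f') / T`, `f, f' ∈ [0, 1)`:
`|Dc d - Dc d'| ≤ |k| / T Nm z + (N + N') / T`, `|k| / T ≤ |Dc d| / N + 1 / T ≤ N / 10^6 + 1 / T` and the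
same with `N'`, so `≤ (N + N') / (2 10^6) + 1 / T`.  So
`|z₀ + ξ z₁ + η z₂| ≤ 3 / (2 (N + N')) |Dc d - Dc d'| ≤ Nm z (1/10^6 + 3 / (2 T (N + N'))) + 3 / (2 T)
≤ Nm z / 1000 + 3 / (2 T)`, and `TRI` gives `Nm z ≤ 30 / T`.  By `NBH` and `LAT` there are at most `C₁`
elements `s` with a given `k`.  For such `s` `dk (T |Dc dᵢ| / Nm dᵢ) ≤ f kᵢ`, where
`f k = dk (min |k| |k+1|)` is summable over `ℤ`.  So the sum is at most `C₁ (∑ k, f k)³`. -/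
def SolStmt : Prop := ∀ m : ℝ, 1 ≤ m → ∃ C : ℝ, 0 < C ∧ ∀ T : ℝ, 1 ≤ T →
  ∀ (Q : Finset (ℤ × ℤ)) (P : ℤ × ℤ → Co), Fam m T Q P →
  ∀ (p : Fin 3 → Co) (σ : Fin 3 → ℝ), (∀ i, σ i = 1 ∨ σ i = -1) → ∀ Q' ⊆ Q,
  (∀ s ∈ Q', ∀ i, Sec i (σ i) (P s - p i) ∧ |Dc (P s - p i)| ≤ Nm (P s - p i) ^ 2 / 10 ^ 6 ∧
    10 ^ 4 ≤ T * Nm (P s - p i)) →
  ∑ s ∈ Q', ∏ i, dk (T * |Dc (P s - p i)| / Nm (P s - p i)) ≤ C

/-- UPB: upper bound of the number of the configurations.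

Proof.  `T = τ^10`, `M = Q.card`.  Expand the product: the sum is `∑` over `s₀, s₁, s₂ ∈ Q` and the
`s ∈ Q₁` with `sᵢ ∈ F i s` of `∏ᵢ |wt i (P s - P sᵢ)| ≤ C₁ ∏ᵢ sqrt (T / Nᵢ) dk (T |Dᵢ| / Nᵢ)`
(`KER`), `Nᵢ = Nm (P s - P sᵢ) ≥ τ^(-4)`.  Let `N_j` be the smallest of the `Nᵢ`.  Then
`sqrt (T / N_j) ≤ τ^7`.  For `k ≠ j`: `Nm (P s_j - P s_k) ≤ 2 N_k`, so by `NBH`
`1 + ‖s_j - s_k‖ ≤ C₂ T N_k` and `sqrt (T / N_k) ≤ C₃ T / sqrt (1 + ‖s_j - s_k‖)`.  For fixed `j`,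
`s₀, s₁, s₂` and signs `σ` (`SEC`) the sum over `s` of `∏ᵢ dk` is at most `C₄` (`SOL`,
`T Nᵢ ≥ τ^6 ≥ 10^4`).  So the sum is at most `C₅ τ^7 T² ∑ (j, s₀, s₁, s₂) ∏ (k ≠ j)
1 / sqrt (1 + ‖s_j - s_k‖)`, and `∑ s' ∈ Q, 1 / sqrt (1 + ‖s_j - s'‖) ≤ C₆ T sqrt T = C₆ τ^15`
(`LAT`, `NBH`: `‖s_j - s'‖ ≤ 2 C T`).  Total: `C₇ τ^(7 + 20 + 30) M`. -/
def UpbStmt : Prop := ∀ κ m : ℝ, 0 < κ → 1 ≤ m → ∃ C τ₀ : ℝ, 0 < C ∧ 1 ≤ τ₀ ∧ ∀ τ : ℝ, τ₀ ≤ τ →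
  ∀ (Q : Finset (ℤ × ℤ)) (P : ℤ × ℤ → Co), Fam m (τ ^ 10) Q P → ∀ Q₁ ⊆ Q,
  ∀ F : Fin 3 → ℤ × ℤ → Finset (ℤ × ℤ),
  (∀ i, ∀ s ∈ Q₁, F i s ⊆ Q ∧ ∀ s' ∈ F i s, Far i κ τ (P s - P s')) →
  ∑ s ∈ Q₁, ∏ i, (∑ s' ∈ F i s, |wt i κ (τ ^ 10) (P s - P s')|) ≤ C * (Q.card * τ ^ 57)

/-- CMB: there are few concentrated curves.

Proof.  Let `M = Q.card ≥ C τ^19`, `T = τ^10`.  `DUB` gives the hypothesis of `LOW` for
`w i s s' = wt i κ T (P s - P s')`; so there is `Q₁ ⊆ Q`, `|Q₁| ≥ M / 4`, such that for `s ∈ Q₁` all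
three degrees are `≥ c M / 4`.  `FAR` (with `c / 4`): choose `F i s` with sums `≥ c M / 8`.  `UPB`:
`(M / 4) (c M / 8)³ ≤ C₁ M τ^57`, so `M³ ≤ C₂ τ^57`. -/
def CmbStmt : Prop := ∀ κ m : ℝ, 0 < κ → 1 ≤ m → ∃ C τ₀ : ℝ, 0 < C ∧ 1 ≤ τ₀ ∧ ∀ τ : ℝ, τ₀ ≤ τ →
  ∀ (Q : Finset (ℤ × ℤ)) (P : ℤ × ℤ → Co), Fam m (τ ^ 10) Q P → Conc κ (τ ^ 10) Q P →
  (Q.card : ℝ) ≤ C * τ ^ 19

/-! ## B. Borel-Cantelli -/

/-- RDC: from the gap property of the visits to the gap property of the curves.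

Proof.  Let `y = ev (P s) x = (T / t)² (1 + w₁ x + w₂ x²)`; for `w ∈ Reg m`, `|x| ≤ 1`:
`Y₀ := 1 / (4 m) ≤ y ≤ Y₁ := 1 + 2 m`, and `t / sqrt (1 + w₁ x + w₂ x²) = T / sqrt y =: σ`.
`|y - y'| = |σ - σ'| (sqrt y + sqrt y') sqrt y sqrt y' / T`.  Put `κ = 2 Y₁^(3/2) e` and
`C = 15 (Y₁ / Y₀)^(3/2)`: `|σ - σ'| ≤ e` gives `|y - y'| ≤ κ / T`, `|σ - σ'| ≥ L` gives
`|y - y'| ≥ 2 Y₀^(3/2) L / T > 14 κ / T`.  `E s = toMeasurable volume (Exc Φ w t)`. -/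
def RdcStmt : Prop := ∀ m : ℝ, 1 ≤ m → ∃ C : ℝ, 1 ≤ C ∧ ∀ (Φ : Set (ℝ × ℝ)) (e L : ℝ), 0 < e →
  C * e ≤ L → Gap Φ e L → ∃ κ : ℝ, 0 < κ ∧ ∀ T : ℝ, 1 ≤ T →
  ∀ (Q : Finset (ℤ × ℤ)) (P : ℤ × ℤ → Co),
  (∀ s ∈ Q, ∃ (t : ℝ) (w : ℝ × ℝ), T ≤ t ∧ t ≤ 2 * T ∧ w ∈ Reg m ∧
    P s = ((T / t) ^ 2, (T / t) ^ 2 * w.1, (T / t) ^ 2 * w.2) ∧
    volume (Exc Φ w t) < ENNReal.ofReal (1 / 2500)) → Conc κ T Q P

/-- CEL: the bad shapes at the scale `T`.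

Proof.  Let `τ = T^(1/10)` (`Real.rpow`), `τ^10 = T`.  `Q` = the set of the squares
`s ∈ ℤ × ℤ` (`s.1 ≤ T w₁ < s.1 + 1`, `s.2 ≤ T w₂ < s.2 + 1`) which contain a bad `w`; it is finite since
`|w₁|, |w₂| ≤ m`.  Choose a bad `w` and its `t` for every `s ∈ Q` and
`P s = ((T/t)², (T/t)² w₁, (T/t)² w₂)`; this is `Fam` (`1/4 ≤ (T/t)² ≤ 1`) and `Conc` (`RDC`).  `CMB`:
`Q.card ≤ C₁ τ^19`.  The bad set is covered by `Q.card` squares of area `T^(-2) = τ^(-20)`. -/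
def CelStmt : Prop := ∀ m : ℝ, 1 ≤ m → ∃ C : ℝ, 1 ≤ C ∧ ∀ (Φ : Set (ℝ × ℝ)) (e L : ℝ), 0 < e →
  C * e ≤ L → Gap Φ e L → ∃ C₁ T₀ : ℝ, 0 < C₁ ∧ 1 ≤ T₀ ∧ ∀ T : ℝ, T₀ ≤ T →
  volume {w | w ∈ Reg m ∧ ∃ t : ℝ, T ≤ t ∧ t ≤ 2 * T ∧
    volume (Exc Φ w t) < ENNReal.ofReal (1 / 2500)} ≤ ENNReal.ofReal (C₁ * T ^ (-(1 / 10) : ℝ))

/-- THB: Theorem B.

Proof.  `T = 2^j`: `∑ j, C₁ 2^(-j/10)` converges, so almost every `w` is in only finitely many of the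
sets of `CEL` (`MeasureTheory.measure_limsup_atTop_eq_zero`); every `t ≥ 2^j₀` is in some
`[2^j, 2^(j+1)]`, `j ≥ j₀`. -/
def ThbStmt : Prop := ∀ m : ℝ, 1 ≤ m → ∃ C : ℝ, 1 ≤ C ∧ ∀ (Φ : Set (ℝ × ℝ)) (e L : ℝ), 0 < e →
  C * e ≤ L → Gap Φ e L → ∀ᵐ w : ℝ × ℝ, w ∈ Reg m →
  ∀ᶠ t : ℝ in atTop, ENNReal.ofReal (1 / 2500) ≤ volume (Exc Φ w t)

/-- NUL: sets of directions which are not small infinitely often.

Proof.  The sets `A n = ⋃ i ≥ n, Exc Φ w (t i)` are measurable (`Φ` is measurable,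
`x ↦ (x, t i / sqrt (...))` is measurable), decreasing, contained in `[-1, 1]`, their measure is at least
`1 / 2500` and their intersection is a null set: contradiction
(`MeasureTheory.tendsto_measure_iInter_atTop`). -/
def NulStmt : Prop := ∀ (Φ : Set (ℝ × ℝ)) (w : ℝ × ℝ) (t : ℕ → ℝ), MeasurableSet Φ →
  (∀ᶠ i in atTop, ENNReal.ofReal (1 / 2500) ≤ volume (Exc Φ w (t i))) →
  ¬ ∀ᵐ x : ℝ, ∀ᶠ i in atTop, x ∉ Exc Φ w (t i)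

/-- FIN: the main theorem.

Proof.  For `n : ℕ`, `m = n + 1` let `C` be as in `THB`; for `q ∈ X` let `U n q` be the open set of `VGP`.
`X` is Lindelöf: countably many `U n q` cover `X`, for every `n`.  Let `G` be the set of the `w` such
that for all `n`, all `q` in the countable set and `w ∈ Reg (n + 1)`:
`∀ᶠ t, 1 / 2500 ≤ volume (Exc (Vis S p (U n q)) w t)`.  Almost every `w` is in `G`.  By `MAT` almost
every `z` with `det2 z ≠ 0` has `w = shp z ∈ G`.  Fix such a `z`, `q` and suppose `Concentrates p q`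
with `t i`; `g = mat z h`, `A = |z.1| > 0`, `g (1, x) = z.1 + x z.2`,
`|g (1, x)|² = A² (1 + w₁ x + w₂ x²) > 0`.  `w ∈ Reg (n + 1)` for large `n` (compactness of `[-1, 1]`).
`q ∈ U := U n q₀`.  By `POL` for a.e. `x` the direction `θ` of `g (1, x)` is not exceptional; `LIN` with
`l = 1 / |g (1, x)|` gives `(x, (t i / A) / sqrt (1 + w₁ x + w₂ x²)) ∈ Vis S p U` for large `i`.  So for
a.e. `x` and large `i` `x ∉ Exc (Vis S p U) w (t i / A)`, in contradiction to `NUL` (`Vis` is open by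
`OPN`). -/
def FinStmt : Prop := MainStmt

end

end Pool.Agent.CRT
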